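import Mathlib
import Pool.Agent.Q160.Upw12

set_option autoImplicit false

namespace Pool.Agent.Results.MP_6670e5_co.DiamondicityThree

/-- The word `u` in `A^n` is covered by the partial word `w` at position `i`. Positions are
counted from `0`, and `none` is the wild-card symbol. -/
def Covers {A : Type} {n : ℕ} (w : List (Option A)) (u : Fin n → A) (i : ℕ) : Prop :=
  i + n ≤ w.length ∧ ∀ (j : Fin n) (c : A), w[i + j.val]? = some (some c) → u j = c

/-- `w` is a universal partial word for `A^n`: it covers every word of `A^n` exactly once. -/
def Universal {A : Type} (n : ℕ) (w : List (Option A)) : Prop :=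
  ∀ u : Fin n → A, ∃! i : ℕ, Covers w u i

/-- `w` is not the word of `n` wild-card symbols and contains at least one wild-card symbol. -/
def Nontriv {A : Type} (n : ℕ) (w : List (Option A)) : Prop :=
  w ≠ List.replicate n none ∧ none ∈ w

/-- Every window of `w`, that is, every block of `n` consecutive characters, contains exactly
`d` wild-card symbols. -/
def HasDiamondicity {A : Type} (n d : ℕ) (w : List (Option A)) : Prop :=
  ∀ i : ℕ, i + n ≤ w.length → Nat.card {j : Fin n // w[i + j.val]? = some none} = d

/-- The first `n - 1` and the last `n - 1` characters of `w` are the same and do not overlap. -/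
def Cyclic {A : Type} (n : ℕ) (w : List (Option A)) : Prop :=
  2 * (n - 1) ≤ w.length ∧ ∀ j : ℕ, j < n - 1 → w[j]? = w[w.length - (n - 1) + j]?

open Pool.Agent.Q160.Upw12

theorem chr_none (k : ℕ) (hk : k < 523) : chr k = none ↔ k % 4 = 0 := by
  have h := mask_iff k hk
  rw [chr]
  by_cases hb : MB.testBit k = true
  · rw [if_pos hb]
    have := h.mp hb
    simp [this]
  · rw [if_neg hb]
    have : ¬ (k % 4 ≠ 0) := fun h' => hb (h.mpr h')
    simp only [true_iff]
    omega

theorem covers_iff (u : Fin 12 → Fin 2) (i : ℕ) (hi : i < 512) : Covers W u i ↔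
    ∀ j : Fin 12, MB.testBit (i + j.val) = true →
      (LB.testBit (i + j.val) = true ↔ u j = 1) := by
  rw [Covers, length_W]
  constructor
  · rintro ⟨_, h⟩ j hj
    have h1 := h j (if LB.testBit (i + j.val) then 1 else 0) (by
      rw [W_get _ (by have := j.2; omega), chr, if_pos hj])
    rw [h1]
    by_cases hb : LB.testBit (i + j.val) = true
    · simp [hb]
    · simp [hb]
  · intro h
    refine ⟨by omega, ?_⟩
    intro j c hc
    rw [W_get _ (by have := j.2; omega), Option.some.injEq, chr] at hc
    by_cases hm : MB.testBit (i + j.val) = true
    · rw [if_pos hm, Option.some.injEq] at hc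
      have h1 := h j hm
      by_cases hb : LB.testBit (i + j.val) = true
      · rw [if_pos hb] at hc
        rw [← hc]
        exact h1.mp hb
      · rw [if_neg hb] at hc
        rw [← hc]
        have h2 : u j ≠ 1 := fun h' => hb (h1.mpr h')
        omega
    · rw [if_neg hm] at hc
      cases hc

/-- There is a nontrivial universal partial word over a two-letter alphabet, for words of length
`12`, all of whose windows contain exactly `3` wild-card symbols. It is moreover cyclic. -/
theorem result : ∃ w : List (Option (Fin 2)),
    Universal 12 w ∧ Nontriv 12 w ∧ HasDiamondicity 12 3 w ∧ Cyclic 12 w := by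
  refine ⟨W, ?_, ⟨?_, ?_⟩, ?_, ?_, ?_⟩
  · intro u
    set U := Nat.ofBits (fun j : Fin 12 => decide (u j = 1)) with hU
    have hUlt : U < 4096 := by
      have := Nat.ofBits_lt_two_pow (fun j : Fin 12 => decide (u j = 1))
      simpa using this
    have hbit : ∀ j : Fin 12, U.testBit j.val = decide (u j = 1) := by
      intro j
      exact Nat.testBit_ofBits_lt (fun j : Fin 12 => decide (u j = 1)) j.val j.2
    obtain ⟨i, hi, hfit⟩ := exists_fit U hUlt
    have hcov : Covers W u i := by
      rw [covers_iff u i hi]
      intro j hj
      rw [hfit j.val j.2 hj, hbit]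
      simp
    refine ⟨i, hcov, ?_⟩
    have key : ∀ a b : ℕ, a < 512 → b < a → Covers W u a → Covers W u b → False := by
      intro a b ha hab hca hcb
      obtain ⟨t, ht, h1, h2, h3⟩ := exists_clash a b ha hab
      rw [covers_iff u a ha] at hca
      rw [covers_iff u b (by omega)] at hcb
      have ea := hca ⟨t, ht⟩ h1
      have eb := hcb ⟨t, ht⟩ h2
      simp only at ea eb
      apply h3
      rw [Bool.eq_iff_iff, ea, eb]
    intro i' hi'
    have hi'lt : i' < 512 := by
      have := hi'.1
      rw [length_W] at this
      omega
    rcases Nat.lt_trichotomy i' i with h | h | h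
    · exact (key i i' hi h hcov hi').elim
    · exact h
    · exact (key i' i hi'lt h hi' hcov).elim
  · intro h
    have := congrArg List.length h
    rw [length_W] at this
    simp at this
  · have h0 : W[0]? = some none := by
      rw [W_get 0 (by omega), (chr_none 0 (by omega)).mpr rfl]
    exact List.mem_of_getElem? h0
  · intro i hi
    rw [length_W] at hi
    have e : ∀ j : Fin 12, W[i + j.val]? = some none ↔ (i + j.val) % 4 = 0 := by
      intro j
      have := j.2
      rw [W_get _ (by omega), Option.some.injEq, chr_none _ (by omega)]
    have e2 : ∀ j : Fin 12, (i + j.val) % 4 = 0 ↔ (i % 4 + j.val) % 4 = 0 := by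
      intro j
      omega
    rw [Nat.card_congr (Equiv.subtypeEquivRight (fun j => (e j).trans (e2 j)))]
    have hr : i % 4 < 4 := Nat.mod_lt _ (by omega)
    generalize i % 4 = r at hr
    rw [Nat.card_eq_fintype_card]
    interval_cases r <;> decide
  · rw [length_W]
    omega
  · intro j hj
    rw [length_W, W_get j (by omega), W_get _ (by omega), chr_cyclic j (by omega)]

end Pool.Agent.Results.MP_6670e5_co.DiamondicityThree
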